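import Pool.Agent.Helper12.MA.StA
import Pool.Agent.Helper12.MA.Lib

/-!
# Project MA (MP_d63854_co), module MRG: the faces after the deletion of a vertex
-/

set_option autoImplicit false

namespace Pool.Agent.Helper13.MA

open Pool.Agent.Helper12.MA
open Pool.Agent.Helper51.AJ (IsMinor Planar Apex ExMinor Con Tch)
open Pool.Agent.Helper12.NK (rst Kc add cnt Pcy IsFace Cof plus)

private lemma planar_add {V : Type} [Finite V] (M : SimpleGraph V) (U N : Set V) (x : V)
    (hpl : Planar (plus M U)) (X : Set (V ⊕ {F : Set V // IsFace M U F}))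
    (hX : Con (plus M U) X) (hXa : ∀ a, a ≠ x → Sum.inl a ∉ X)
    (hT : ∀ a ∈ N, a ≠ x → Tch (plus M U) X {Sum.inl a}) :
    Planar (add (rst M (U \ {x})) x N) := by
  classical
  have hx : ∀ a b, a ≠ x → b ≠ x → a ≠ b →
      Disjoint ({Sum.inl a} : Set (V ⊕ {F : Set V // IsFace M U F})) {Sum.inl b} := by
    intro a b _ _ hab
    rw [Set.disjoint_singleton]
    intro h
    exact hab (Sum.inl.inj h)
  have hxX : ∀ a, a ≠ x → Disjoint X ({Sum.inl a} : Set (V ⊕ {F : Set V // IsFace M U F})) := by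
    intro a ha
    rw [Set.disjoint_singleton_right]
    exact hXa a ha
  refine nPTR V (V ⊕ {F : Set V // IsFace M U F}) (add (rst M (U \ {x})) x N) (plus M U)
    (fun a => if a = x then X else {Sum.inl a}) ?_ ?_ ?_ hpl
  · intro a a' _
    by_cases h : a = x
    · simp only [if_pos h]; exact hX
    · simp only [if_neg h]; exact Pool.Agent.Helper51.AJ.con_singleton _ _
  · intro a _ b _ hab _ _
    by_cases h : a = x
    · have hb : b ≠ x := fun hb => hab (h.trans hb.symm)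
      simp only [if_pos h, if_neg hb]
      exact hxX b hb
    · by_cases hb : b = x
      · simp only [if_neg h, if_pos hb]
        exact (hxX a h).symm
      · simp only [if_neg h, if_neg hb]
        exact hx a b h hb hab
  · intro a b hab
    rcases hab with h | h | h
    · have ha : a ≠ x := fun e => h.2.1.2 e
      have hb : b ≠ x := fun e => h.2.2.2 e
      simp only [if_neg ha, if_neg hb]
      exact ⟨_, rfl, _, rfl, ⟨h.1, h.2.1.1, h.2.2.1⟩⟩
    · simp only [if_pos h.1, if_neg h.2.2]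
      exact hT b h.2.1 h.2.2
    · simp only [if_pos h.1, if_neg h.2.2]
      exact Pool.Agent.Helper51.AJ.tch_symm (hT a h.2.1 h.2.2)

private lemma con_star {V : Type} (M : SimpleGraph V) (U : Set V) (x : V) :
    Con (plus M U) ({y | y = Sum.inl x ∨ ∃ F : {F : Set V // IsFace M U F}, x ∈ F.1 ∧ y = Sum.inr F}) := by
  have h0 : (Sum.inl x : V ⊕ {F : Set V // IsFace M U F}) ∈
      ({y | y = Sum.inl x ∨ ∃ F : {F : Set V // IsFace M U F}, x ∈ F.1 ∧ y = Sum.inr F} :
        Set (V ⊕ {F : Set V // IsFace M U F})) := Or.inl rfl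
  show ((plus M U).induce _).Connected
  rw [SimpleGraph.connected_iff_exists_forall_reachable]
  refine ⟨⟨Sum.inl x, h0⟩, ?_⟩
  rintro ⟨y, hy⟩
  rcases hy with hy | ⟨F, hF, hy⟩
  · subst hy; exact SimpleGraph.Reachable.refl _
  · subst hy
    apply SimpleGraph.Adj.reachable
    show (plus M U).Adj (Sum.inl x) (Sum.inr F)
    exact hF

theorem hMRG (hFAX : StFAX) (hFNB : StFNB) : StMRG := by
  classical
  intro V _ M U x hP hxU hK
  have hpl : Planar (plus M U) := nPLS V M U hP.1 hP.2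
  have hxU' : x ∉ U \ {x} := fun h => h.2 rfl
  have hnb := hFNB V M U hP
  -- a face of the smaller graph which contains N
  have key : ∀ N : Set V, N ⊆ U \ {x} → 3 ≤ N.ncard → Planar (add (rst M (U \ {x})) x N) →
      ∃ F, IsFace M (U \ {x}) F ∧ N ⊆ F := by
    intro N h1 h2 h3
    obtain ⟨m, c, hc, hN, _⟩ := nTUT V M (U \ {x}) N x hK h1 h2 hxU' h3
    exact ⟨Set.range c, ⟨m, c, hc, rfl⟩, hN⟩
  -- two neighbours in a face
  have two : ∀ W F, IsFace M W F → ∀ a ∈ F, ∃ b ∈ F, ∃ c ∈ F, b ≠ c ∧ M.Adj a b ∧ M.Adj a c := by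
    intro W F hF a ha
    obtain ⟨b, hb, c, hc, hbc, _, _, h⟩ := (hFAX V M W F hF).2.2.2.1 a ha
    exact ⟨b, hb, c, hc, hbc, (h b hb).mpr (Or.inl rfl), (h c hc).mpr (Or.inr rfl)⟩
  have nef : ∀ W F, IsFace M W F → F.Nonempty := by
    intro W F hF
    have := (hFAX V M W F hF).2.1
    rw [← Set.ncard_pos]
    omega
  have eqf : ∀ W W' C F, IsFace M W F → IsFace M W' C → C ⊆ F → C = F := by
    intro W W' C F hF hC hCF
    exact (hFAX V M W F hF).2.2.2.2.2 C hCF (nef W' C hC) (two W' C hC)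
  -- the set S
  have hSU : {t | t ≠ x ∧ Cof M U x t} ⊆ U \ {x} := by
    rintro t ⟨ht, F, hF, _, htF⟩
    exact ⟨(hFAX V M U F hF).1 htF, ht⟩
  have hnS : ∀ b ∈ U, M.Adj x b → b ∈ {t | t ≠ x ∧ Cof M U x t} := by
    intro b hb hxb
    exact ⟨(M.ne_of_adj hxb).symm, hnb.2.2.2.2.2 x hxU b hb hxb⟩
  have hS3 : 3 ≤ {t | t ≠ x ∧ Cof M U x t}.ncard := by
    have h1 := (nKCA V M U).2.2.1 3 hP.1 x hxU
    refine le_trans h1 (Set.ncard_le_ncard ?_ (Set.toFinite _))
    intro b hb
    exact hnS b hb.1 hb.2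
  have hSpl : Planar (add (rst M (U \ {x})) x {t | t ≠ x ∧ Cof M U x t}) := by
    refine planar_add M U _ x hpl _ (con_star M U x) ?_ ?_
    · rintro a ha (h | ⟨F, _, h⟩)
      · exact ha (Sum.inl.inj h)
      · exact absurd h (by simp)
    · rintro a ⟨_, F, hF, hxF, haF⟩ _
      exact ⟨Sum.inr ⟨F, hF⟩, Or.inr ⟨⟨F, hF⟩, hxF, rfl⟩, _, rfl, haF⟩
  have h1 : IsFace M (U \ {x}) {t | t ≠ x ∧ Cof M U x t} := by
    obtain ⟨F₀, hF₀, hSF⟩ := key _ hSU hS3 hSpl
    have hF₀U := (hFAX V M (U \ {x}) F₀ hF₀).1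
    rcases nFDL V M U x hP.1 hK hP.2 F₀ hF₀ with h | h
    · exfalso
      have hcon := (hFAX V M U F₀ h).2.2.1
      have hxF : x ∉ F₀ := fun e => (hF₀U e).2 rfl
      -- x is isolated in U minus F0
      have hall : ∀ y ∈ U \ F₀, y = x := by
        intro y hy
        by_contra hyx
        have hc : ((M.induce (U \ F₀))).Connected := hcon
        obtain ⟨w⟩ := hc.preconnected ⟨x, hxU, hxF⟩ ⟨y, hy⟩
        cases w with
        | nil => exact hyx rfl
        | @cons _ z _ hadj _ => exact z.2.2 (hSF (hnS z.1 z.2.1 hadj))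
      have hU' : U \ {x} ⊆ F₀ := by
        intro y hy
        by_contra hyF
        exact hy.2 (hall y ⟨hy.1, hyF⟩)
      obtain ⟨z, hz⟩ := nef _ F₀ hF₀
      obtain ⟨a, _, b, _, _, _, _, hab⟩ := (hFAX V M (U \ {x}) F₀ hF₀).2.2.2.1 z hz
      have h3 := (nKCA V M (U \ {x})).2.2.1 3 hK z (hF₀U hz)
      have h4 : {b' | b' ∈ U \ {x} ∧ M.Adj z b'} ⊆ {a, b} := by
        rintro c ⟨hc, hzc⟩
        exact (hab c (hU' hc)).mp hzc
      have h5 := Set.ncard_le_ncard h4 (Set.toFinite _)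
      have h6 : ({a, b} : Set V).ncard ≤ 2 := by
        refine le_trans (Set.ncard_insert_le a {b}) ?_
        rw [Set.ncard_singleton]
      omega
    · have : F₀ = {t | t ≠ x ∧ Cof M U x t} := by
        apply Set.Subset.antisymm _ hSF
        intro t ht
        exact ⟨fun e => (hF₀U ht).2 e, h t ht⟩
      rw [← this]; exact hF₀
  refine ⟨h1, ?_, ?_⟩
  · intro F hF
    have hFU := (hFAX V M (U \ {x}) F hF).1
    rcases nFDL V M U x hP.1 hK hP.2 F hF with h | h
    · left
      exact ⟨h, fun e => (hFU e).2 rfl⟩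
    · right
      refine eqf _ _ _ _ h1 hF ?_
      intro t ht
      exact ⟨fun e => (hFU ht).2 e, h t ht⟩
  · intro F hF hxF
    have hFU : F ⊆ U \ {x} := fun t ht => ⟨(hFAX V M U F hF).1 ht, fun e => hxF (e ▸ ht)⟩
    have hFp : Planar (add (rst M (U \ {x})) x F) := by
      refine planar_add M U F x hpl {Sum.inr ⟨F, hF⟩} (Pool.Agent.Helper51.AJ.con_singleton _ _) ?_ ?_
      · intro a _ h
        exact absurd h (by simp)
      · intro a ha _
        exact ⟨_, rfl, _, rfl, ha⟩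
    obtain ⟨F', hF', hFF⟩ := key F hFU (hFAX V M U F hF).2.1 hFp
    rw [eqf _ _ _ _ hF' hF hFF]
    exact hF'

end Pool.Agent.Helper13.MA
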